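import Mathlib
import Pool.Agent.Q64.HC.Count
import Pool.Agent.Q64.HC.Fam2

/-!
# The variational Hodge conjecture for the products of all families with the abelian varieties of
almost all CM types of all CM fields

Let `E i` (`i` in a finite set) be CM fields of degree `2 g i`. Nothing is assumed about their
Galois groups. They are pairwise independent: for `i ≠ k` and all complex embeddings `φ` of `E i`
and `ψ` of `E k` some automorphism of `ℂ` is the identity on `φ (E i)` and the complex conjugation
on `ψ (E k)` (this is no condition if there is only one field). There are `2 ^ (∑ i, g i)` families
of CM types `Φ i` of the fields `E i`. A family is exceptional (`exceptionalFamilies`) if the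
following statement is false for it. Let `A` be any product of copies of the abelian varieties of
CM types `(E i, Φ i)`, and let `Y` be **any** family of smooth projective varieties over `B` which
is unrelated to the fields `E i` (see below). Here `B` is the base, or a covering of the base, over
which the cohomology of the fibres is trivialized: flat classes are constant. **Every flat class on
`A × Y` which is a Hodge class on all fibres `A × Y_b` is a sum of products `f ⊗ x` of a
combination `f` of products of divisor classes on `A` and a flat class `x` which is a Hodge class
on all `Y_b`; and the variational Hodge conjecture for `A × Y` is equivalent to the variational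
Hodge conjecture for `Y`** (`VariationalTimes`). For instance the variational Hodge conjecture is
true for `A × Y` for all unrelated families `Y` of varieties of dimension at most three.

The condition on `Y` (`UnrelatedFamily`). Let `w ≠ 0` be a flat complex cohomology class of the
family such that for each automorphism `σ` of `ℂ` the conjugate `σ w` is of pure type on **all**
fibres: a sum of classes of types `(p, q)` with `p - q = d σ`, where `d σ` does not depend on the
fibre. The condition is that for all such `w` a function `n` on the complex embeddings of `E i`
with `n (conj φ) = - n φ` which is invariant under all automorphisms `τ` of `ℂ` with
`d (σ τ) = d σ` for all `σ` is zero. The vectors `w` span a constant sub-Hodge structure with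
complex multiplication of the variation of Hodge structure, and the condition is void for the
vectors with `d = 0`. So the condition is void if the variation of Hodge structure has no constant
sub-Hodge structures with complex multiplication, other than those of the types `(p, p)`; it is
true if the compositum of the fields of multiplication of these is linearly disjoint from the
normal closures of the `E i`; and it is true if one fibre is unrelated to the fields `E i`, for
instance if its Betti numbers are less than `2 * dim S` for all nonzero spaces `S` of functions `n`
with `n (conj φ) = - n φ` that are stable under the automorphisms of `ℂ`.

Nothing is assumed on the Hodge classes of the fibres of `Y`, nor on the base or the monodromy.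

The cohomology of the fibres of `Y` is the rational space `ℚ ^ v` with a basis of homogeneous
elements and the Hodge operators `(Y b).z` (multiplication by `p - q`); the cohomology of `A × Y_b`
is `HAZ W v`, the forms on the homology `W` of `A` with values in `ℚ ^ v`. Of algebraic cycles only
two properties are used, which are the fields of `CycleSystem` (starting files): the product of a
product of divisor classes on `A` and an algebraic class on `Y_b` is algebraic, and `pr_*(F ∧ β)`
is algebraic on `Y_b` for `F` algebraic on `A × Y_b` and a product `β` of divisor classes on `A`,
where `pr` is the projection to `Y_b`.

The theorem bounds the number of the exceptional families of CM types: it is at most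
`2 ^ (∑ i, g i) * ∑ i, C * (1 + log (2 g i)) ^ 16 * min (N ^ 2 * D ^ (1 / 4) / √g) (√g / p)` with
an absolute constant `C`. Here, for `E = E i` and `g = g i`, `N` is the number of the CM subfields
of `E` (with `E`), `D = D i ≥ 1` is a bound for the degrees of the CM subfields of `E` that are
normal over `ℚ` with a nonabelian Galois group, and `p = p i` is any prime factor of `g` (or
`p = 1`). So the exceptional types are a proportion `O (g ^ (-1 / 4) * (log g) ^ 16)` of all types
of all CM fields with a bounded number of CM subfields, and `O (g ^ (-1 / 2) * (log g) ^ 16)` if
the normal nonabelian ones have bounded degrees. Some assumption is necessary: almost all types of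
a multiquadratic CM field are degenerate. The counting part, and the theorem on the Hodge classes
on `A × Z` for varieties `Z`, are those of `AllCMFieldsTimes` (MP_e12fcd_ag, starting files).

Relation to other results: `TimesAnyVariety` (this folder, starting files) is about families `A`
which move relative to `Y`; here `A` is constant. `OneFrobeniusTimesFamily` (this folder, helper70)
needs an element of the Galois group of the generic point whose eigenvalues on `A` are Weil numbers
of given fields with absolutely irreducible odd functions. `AllCMFieldsTimes` (MP_e12fcd_ag,
starting files) is about the Hodge classes on `A × Z` for one variety `Z`: it is the case of a base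
with one point, where the variational conjecture is void. In a family the condition on `Y` is much
weaker, as only constant classes matter.

The proof. Over the complex numbers a flat class `F` on `A × Y` is a sum of products of monomials
of eigenforms of the fields `E i` on `A` and flat vectors `w`. If `F` is a Hodge class on all
fibres then all conjugates of `w` are of pure type on all fibres, and the types are determined by
the monomial and the CM types. If the CM types are not degenerate then the exponents of the
monomial are invariant under the automorphisms which do not change the types of `w`, so that they
are balanced, as `Y` is unrelated. So the components of `F` on `Y` are Hodge classes on all fibres,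
and those on `A` are balanced, so that they are combinations of products of divisor classes. To
find the components on `Y` by algebraic operations a perfect pairing is needed: for a balanced form
`f ≠ 0` on `A` there is a balanced form `β` of complementary degree with `∫ f ∧ β ≠ 0`, since the
conjugates of the determinant are multiples of it.
-/

set_option autoImplicit false

namespace Pool.Agent.Results.MP_e9c0f3_ag.AllCMTypesTimesFamily

open NumberField Module Finset Pool.Agent.H204R3.CM Pool.Agent.H977R3.CM Pool.Agent.Y1.KN
  Pool.Agent.Q64.HC

/-- The families of CM types `Φ i` of the fields `E i` for which the statement `VariationalTimes`
is false. -/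
def exceptionalFamilies {ι : Type} (E : ι → Type) [∀ i, Field (E i)] [∀ i, NumberField (E i)] :
    Set (∀ i, Set (E i →+* ℂ)) :=
  {Φ | (∀ i, IsCMType (Φ i)) ∧ ¬ VariationalTimes Φ}

/-- **The variational Hodge conjecture for the products of all families with the abelian varieties
of almost all CM types of all CM fields.** -/
theorem result :
    ∃ C : ℝ, 0 ≤ C ∧ ∀ (ι : Type) [Fintype ι] (E : ι → Type) [∀ i, Field (E i)]
      [∀ i, NumberField (E i)] [∀ i, IsCMField (E i)] (g p : ι → ℕ) (D : ι → ℝ),
      PairwiseIndep E → (∀ i, finrank ℚ (E i) = 2 * g i) →
      (∀ i, p i ∣ g i ∧ (p i = 1 ∨ (p i).Prime)) → (∀ i, 1 ≤ D i) →
      (∀ (i : ι) (F : IntermediateField ℚ (E i)), IsCMField F → IsGalois ℚ F →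
        ¬ IsAbelianGalois ℚ F → (finrank ℚ F : ℝ) ≤ D i) →
      ((exceptionalFamilies E).ncard : ℝ) ≤
        2 ^ (∑ i, g i) * ∑ i, C * ((1 + Real.log (2 * g i)) ^ 16 *
          min ((numCMSubfields (E i) : ℝ) ^ 2 * D i ^ (1 / 4 : ℝ) / √(g i))
            (√(g i) / p i)) := by
  obtain ⟨C, hC0, hC⟩ := count
  refine ⟨C, hC0, ?_⟩
  intro ι _ E _ _ _ g p D hE hg hp hD hDF
  exact hC ι E g p D hE hg hp hD hDF _ fun Φ hΦ hnd => variationalTimes hΦ hE hnd

end Pool.Agent.Results.MP_e9c0f3_ag.AllCMTypesTimesFamily
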