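import Mathlib
import Pool.Agent.Q70.MM.VhcDefs

/-!
# The variational Hodge conjecture for `A ^ n ×_S Y`, with one Frobenius element on `A` and an
arbitrary family `Y`

Let `S` be a smooth connected quasi-projective complex variety, `A → S` an abelian scheme and `Y → S` a
smooth projective morphism.  There is a finitely generated field `k₀` over which everything is
defined, including the point `0` of `S`.  Let `Γ` be the Galois group of the function field of `S` over
`k₀`.  A class `α` on the fibre over `0` of `X = A ^ n ×_S Y` which is algebraic and the value of a
global section is invariant under the geometric fundamental group and (after a finite extension of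
`k₀`) under the Galois group of `k₀`, as the point `0` is rational over `k₀`.  So `α` is a Tate class
of the generic fibre of `X`.  We suppose that **one** Frobenius element `γ` of `Γ`, at one closed
point of a model of `S` over the integers, has on the Tate module `V` of `A` the characteristic
polynomial described below, and that its eigenvalues on the cohomology of `Y` are of a certain
general kind (which is allowed to be very far from those of `A`; for instance all simple factors of
the Frobenius polynomial have smaller degree).  The family `Y` is arbitrary otherwise, the
variational conjecture is not known for it.

**Theorem.  The variational Hodge conjecture for `Y` (in the codimensions `c - m`, `0 ≤ m`) implies the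
one for `A ^ n ×_S Y` (in codimension `c`), for all `n`.**

What is proved in Lean (`VariationalHolds`).  `V` and `χ` are the Tate module of `A` (tensor `ℚ`)
and the cyclotomic character, with the theorems of Faltings (`FT.IsTateModule`), and `M` is a
representation `τ`, namely `M = H^(2(c-m))(Y)(c)` of the generic fibre, so that the alternating
forms with `2 m` variables in `V ^ n` and values in `M` are the Künneth component `H^(2m)(A ^ n) ⊗
H^(2(c-m))(Y)(c)` of `H^(2c)(A ^ n × Y)(c)`, and the forms in an odd number of variables, with
`M = H^(2c-2m-1)(Y)(c)`, are the other components.  A class which is flat (and algebraic at `0`) has
components which are flat (and algebraic at `0`), because of the multiplication by integers on `A`.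
Flat classes which are algebraic at `0` are invariant under a subgroup of finite index of `Γ`
(`IsEquivariant`).  Let `Xη`, `X0` (in the Künneth component) and `Yη`, `Y0` (in `M`) be the subspaces
generated by the classes which are algebraic on the generic fibre, and those which are algebraic on
the fibre over `0`.  Of cycles we use (`IsCycleSystem`)

* `product`: products of `m` classes of divisors on `A ^ n` (by Faltings: of Tate classes of degree
  two) and classes of cycles on `Y` are classes of cycles on `A ^ n × Y`;
* `push`: if `g` is algebraic at `0` and `β` a product of classes of divisors on `A ^ n` of
  complementary degree, the push-forward of `g β` to `Y` is algebraic at `0`; `Φ` is the set of the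
  functionals `f ↦ ∫ f β`;
* `pairing`: the products of divisor classes on `A ^ n` satisfy the theorem that homological and
  numerical equivalence agree (Lieberman).

Conclusion: if all elements of `Y0` on which a subgroup of finite index acts through `χ ^ m` are in
`Yη` (this is the variational conjecture for `Y` in codimension `c - m`), then every element of `X0`
which is invariant under a subgroup of finite index is in `Xη`; and the components of odd degree
have no invariant elements at all, so the variational conjecture for `A ^ n ×_S Y` follows.

The conditions.  The characteristic polynomial of `γ` on the Tate module of `A` is the product of the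
minimal polynomials of Weil numbers `π c l` for `q = p ^ a` which generate CM fields `K c`, `c` in a
finite set `C`, `l` in a finite set `J c`.  The functions `n` on the complex embeddings of `K c` with
`n (conj φ) = - n φ` are an absolutely irreducible representation of the automorphisms of `ℂ`
(`OddAbsolutelyIrreducible`; this is the generic case).  The slopes are in general position in the
following sense.  Let the slope function of `π c l` be `τ ↦ log |τ (π c l)| + (log q) / 2` on the
embeddings `τ` of `K c` in the algebraic closure of `ℚ_p`, and `D c` the quadratic form `m ↦ ∑ τ, (∑
l, m l * slope (π c l) τ) ^ 2` in the rational variables `m l` (`slopeForm`);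

* `IndependentSlopes`: for each `c` the slope functions of the `π c l` are linearly independent over
  `ℚ`;
* `SeparatedPairs`: the indices `c` form pairs `c`, `β c` such that `K c` and `K c'` are unrelated
  (there are no equivariant maps between the odd functions) if `c'` is different from `c` and `β c`,
  and if `β c ≠ c` then `[K c : ℚ] ≠ [K (β c) : ℚ]`, or `[K c : ℚ] = 2 g` with odd `g` and `D c` and
  `D (β c)` have no common values at nonzero rational vectors, or `g` is twice an odd number and no
  value of `D c` is a value of `D (β c)` times a sum of two squares (at nonzero vectors).

The condition on `Y` (`HarmlessProducts`): `γ` is killed on `M` by a rational polynomial all of whose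
complex roots are products of algebraic numbers each of which is, for each `c`, unrelated to
`K c` (an odd function on the embeddings of `K c` invariant under all automorphisms of `ℂ` that
fix a power of the number is zero) or of smaller degree than `K c`.  For example the Frobenius
polynomial on the cohomology of `Y` has only irreducible factors of smaller degree than all `K c`;
and `Y` may be a fibre product of families of curves, surfaces, ... with this property.

**First part**: the theorem in general.  **Second part**: the fields `K c` are pairwise unrelated,
all `π c l` are ordinary, there are at most three of them for each field, and their slopes are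
neither equal nor opposite (`DifferentSlopes`).  **Third part**: three Weil numbers, `x`, `y` in `F
false` and `z` in `F true`, with only the slopes `0`, `1 / 2`, `1` and with `p`-ranks `f₁`, `f₂`, `f >
0`, nothing is assumed about the relation of the two fields, `[F false : ℚ] = 2 g` with odd `g`,
`2 k` is the number of embeddings at which `x` and `y` have the same slope minus the number of
those at which they have opposite slopes, both different from `1 / 2`, and the equation `f₁ X ^ 2 +
2 k X Y + f₂ Y ^ 2 = f Z ^ 2` has no integral solution with `(X, Y) ≠ (0, 0)`.

What is known: the starting theorems of this folder (`TimesAnyVariety`, `SmallMonodromy`,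
`ManyModuliFlat`) are about powers of abelian schemes with conditions on the moduli or on the
monodromy of the family; here `A` can be an isotrivial or constant family, and the condition is
arithmetic, on one Frobenius element.  For constant abelian schemes `A` whose Hodge classes are
generated by divisors on all powers, and whose Hodge structure has nothing in common with the one
of `Y`, the statement would follow from the Mumford-Tate group; the point is that one Frobenius
element is enough to prove this for the flat classes, with `Y` arbitrary.  The engine is the one of
`SumsWithMotives` (MP_de8692_ag); the starting library Y137.MV and the results of helper306 on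
products of harmless numbers are used there.
-/

set_option autoImplicit false

namespace Pool.Agent.Results.MP_e9c0f3_ag.OneFrobeniusTimesFamily

open NumberField Module IntermediateField Pool.Agent.H204R3.GP Pool.Agent.TH170
  Pool.Agent.Y137.MV Pool.Agent.Y137.SL Pool.Agent.Y1.CT Pool.Agent.Q70.SQ Pool.Agent.Q70.MM

/-- **The variational Hodge conjecture for `Y → S` implies the one for `A ^ n ×_S Y`, for the abelian
schemes `A` with a Frobenius element at a closed point with several Weil numbers in the same CM field
or in related CM fields, with absolutely irreducible odd functions and separated quadratic forms of
slopes (first part), for instance at most three ordinary ones for each field (second part), or three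
Weil numbers in two arbitrary such fields with a ternary equation (third part), and for all families
`Y` on which the eigenvalues of this Frobenius element are products of numbers unrelated to these
fields or of smaller degree.** -/
theorem result :
    (∀ (p : ℕ) [Fact p.Prime] (a : ℕ) (C : Type) [Fintype C] (K : C → Type)
      [∀ c, Field (K c)] [∀ c, NumberField (K c)] [∀ c, IsCMField (K c)]
      (J : C → Type) [∀ c, Fintype (J c)] (π : ∀ c, J c → K c), 0 < a →
      IsSystem p a π → SeparatedPairs p a π →
      VariationalHolds p a K (fun i : Σ c, J c => K i.1) (fun i => π i.1 i.2)) ∧
    (∀ (p : ℕ) [Fact p.Prime] (a : ℕ) (C : Type) [Fintype C] (K : C → Type)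
      [∀ c, Field (K c)] [∀ c, NumberField (K c)] [∀ c, IsCMField (K c)]
      (J : C → Type) [∀ c, Fintype (J c)] (π : ∀ c, J c → K c), 0 < a →
      (∀ c l, ℚ⟮π c l⟯ = ⊤) →
      (∀ c l, π c l * IsCMField.complexConj (K c) (π c l) = (p : K c) ^ a) →
      (∀ c, OddAbsolutelyIrreducible (K c)) →
      (∀ c c', c ≠ c' → Pool.Agent.Y137.MV.Unrelated (K c) (K c')) →
      (∀ c, Fintype.card (J c) ≤ 3) → (∀ c l, IsOrdinary p a (π c l)) →
      (∀ c l l', l ≠ l' → DifferentSlopes p a (π c l) (π c l')) →
      VariationalHolds p a K (fun i : Σ c, J c => K i.1) (fun i => π i.1 i.2)) ∧
    (∀ (p : ℕ) [Fact p.Prime] (a : ℕ) (F : Bool → Type)
      [∀ b, Field (F b)] [∀ b, NumberField (F b)] [∀ b, IsCMField (F b)]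
      (x y : F false) (z : F true) (f₁ f₂ f : ℕ) (k : ℤ), 0 < a →
      IsTriple p a x y z f₁ f₂ f k →
      VariationalHolds p a F (fun i : Σ b : Bool, Fin (cond b 1 2) => F i.1)
        (fun i => twoOne x y z i.1 i.2)) := by
  refine ⟨?_, ?_, ?_⟩
  · intro p _ a C _ K _ _ _ J _ π ha hS hsep
    exact variationalHolds (fun c => (hS.abs c).1) (fun i => hS.gen i.1 i.2)
      (fun i => hS.weil i.1 i.2) (angle_of_forms π ha hS.weil hS.abs hS.slopes hsep)
  · intro p _ a C _ K _ _ _ J _ π ha hg hw habs hun hcard hord hdiff
    exact variationalHolds (fun c => (habs c).1) (fun i => hg i.1 i.2) (fun i => hw i.1 i.2)
      (angle_same π ha hw habs hun (independent_of_three π ha hcard hord hdiff))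
  · intro p _ a F _ _ _ x y z f₁ f₂ f k ha hT
    exact variationalHolds (J := fun b : Bool => Fin (cond b 1 2)) (π := twoOne x y z)
      (fun b => by
        cases b
        · exact hT.abs.1.1
        · exact hT.abs.2.1) (triple_gen hT) (triple_weil hT) (angle_triple ha hT)

end Pool.Agent.Results.MP_e9c0f3_ag.OneFrobeniusTimesFamily
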