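import Pool.Agent.Q328.VD.Many
import Pool.Agent.Results.MP_c1bb77_ag.FewDigitMembers
import Pool.Agent.Results.MP_e9c0f3_ag.OneFrobeniusTimesFamily

/-!
# The variational Hodge conjecture for `A ^ n ×_S Y`, `A` near an arbitrary integral point of a family of abelian schemes and `Y` arbitrary

Let `S` be a smooth connected quasi-projective variety over a finitely generated field and `Γ` the Galois group of its function
field. Let `A_t`, for `t` in a set `U` of integral points, be a family of abelian schemes over `S`, for example the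
constant abelian schemes `A_t × S` with the members `A_t` of a family of abelian varieties over an open subset of the affine
space over `ℤ[1/N]`, or `A_t ×_S B_t`, .... For each prime number `p` let `γ p ∈ Γ` be a Frobenius element at a closed point of a
model of `S`, above `p`. The characteristic polynomial of `γ p` on the Tate module of `A_t` depends only on the residue class of `t`
modulo `p`. Call it of general type of degree `D` if it is the product of the minimal polynomials of Weil numbers generating CM
fields `K c` of degrees at least `D`, with absolutely irreducible odd functions and slopes in general position, as in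
`OneFrobeniusTimesFamily`; for instance if it is irreducible of degree `D = 2 g`, with Galois group the group of all signed
permutations, and not supersingular (by the theorem of Chavdarov these are almost all residue classes modulo `p`, for large
`p`, if the monodromy group of the family is the full symplectic group).

**Theorem.** Suppose that there is a set `P` of prime numbers with at least `y ^ θ` elements up to `y` for large `y`, such that for all
`p ∈ P` a proportion at least `κ > 0` of the residue classes modulo `p` is good and of general type of degree `D`. Let an ARBITRARY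
integral point be given, whose coordinates have at most `K` digits in base `b`. Choose for each coordinate `r` of the `K` positions
and replace the digits at these positions by arbitrary other digits; let `C log K ≤ r ≤ K / 2`. Then for all but a proportion
`K ^ (-B)` of the choices the following is true for the new point `t`, for all `ℓ` and for ALL smooth projective families `Y → S`
simultaneously, such that, with the exception of at most `m` primes `p ∈ P`, the eigenvalues of `γ p` on the cohomology of `Y` are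
products of algebraic numbers of degree less than `D` (for instance all `Y` with Betti numbers less than `D` and good reduction
at the closed points for all but `m` primes, and fibre products of such families): **the variational Hodge conjecture for `Y` implies
the variational Hodge conjecture for `A_t ^ n ×_S Y`, for all `n`.** The statement proved is the one of `OneFrobeniusTimesFamily`
(`VariationalHolds` there, `Implies` here). The families `Y` are arbitrary otherwise, the conjecture is not known for them.
Here `B` and `m` are arbitrary, and `C` and `K₀` depend only on the family `A`, `P`, `κ`, `θ`, `b`, `B` and `m`.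

The proof combines `OneFrobeniusTimesFamily` (first part) with the law for the residues, modulo many small primes, of vectors of
which few digits are changed (`Pool.Agent.Q328.VD`).
-/

set_option autoImplicit false

namespace Pool.Agent.Results.MP_e9c0f3_ag.FewDigitMembers

open NumberField Module Polynomial Pool.Agent.H204R3.GP Pool.Agent.TH170 Pool.Agent.Y137.MV Pool.Agent.Q70.SQ
  Pool.Agent.Q70.MM Pool.Agent.Results.MP_c1bb77_ag.FewDigitMembers

/-- A CM field. -/
structure CMField where
  E : Type
  [field : Field E]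
  [numberField : NumberField E]
  [cm : IsCMField E]

attribute [instance] CMField.field CMField.numberField CMField.cm

/-- The polynomial `Q` is of general type of degree `D`: it is the product of the minimal polynomials of Weil numbers `π c l` (with
`p ^ a` elements in the residue field) generating CM fields `K c` of degree at least `D`, with the properties `IsSystem` and
`SeparatedPairs` of `OneFrobeniusTimesFamily`. -/
def GeneralType (p a D : ℕ) (Q : ℚ[X]) : Prop :=
  ∃ (_ : Fact p.Prime) (C : Type) (_ : Fintype C) (K : C → CMField) (J : C → Type) (_ : ∀ c, Fintype (J c))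
    (π : ∀ c, J c → (K c).E), IsSystem p a π ∧ SeparatedPairs p a π ∧ (∀ c, D ≤ finrank ℚ (K c).E) ∧
      Q = ∏ i : Σ c, J c, minpoly ℚ (π i.1 i.2)

/-- The complex roots of the polynomial `R ≠ 0` are different from zero and products of algebraic numbers of degree less than
`D`. -/
def SmallRoots (D : ℕ) (R : ℚ[X]) : Prop :=
  R ≠ 0 ∧ ∀ x : ℂ, aeval x R = 0 → x ≠ 0 ∧ ∃ (n : ℕ) (y : Fin n → ℂ),
    (∀ l, IsAlgebraic ℚ (y l) ∧ (minpoly ℚ (y l)).natDegree < D) ∧ x = ∏ l, y l

section implies

variable {k V M Γ : Type} [Field k] [AddCommGroup V] [Module k V] [AddCommGroup M] [Module k M] [Group Γ]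

/-- In the Künneth component `H^(2m)(A ^ n) ⊗ M`: if the classes in `M` which are algebraic at `0` and on which a subgroup of finite
index acts through `χ ^ m` are algebraic generically, then the flat classes of `A ^ n ×_S Y` which are algebraic at `0` are algebraic
generically; for all systems `Xη`, `X0`, `Yη`, `Y0` of subspaces of algebraic classes with the properties
`IsCycleSystem` (products, push-forward, pairing) of `OneFrobeniusTimesFamily`. -/
def EvenPart (ρ : Representation k Γ V) (χ : Γ →* k) (τ : Representation k Γ M) (n m : ℕ) : Prop :=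
  ∀ (Φ : Set (((Fin n → V) [⋀^Fin m × Fin 2]→ₗ[k] k) →ₗ[k] k)) (Xη X0 : Submodule k ((Fin n → V) [⋀^Fin m × Fin 2]→ₗ[k] M))
    (Yη Y0 : Submodule k M), IsCycleSystem ρ χ Φ Xη X0 Yη Y0 → (∀ w ∈ Y0, IsTateVector τ χ m w → w ∈ Yη) →
      ∀ g ∈ X0, IsEquivariant ρ τ g → g ∈ Xη

/-- There are no flat classes in the Künneth components of `A ^ n ×_S Y` which are of odd degree on `A ^ n`. -/
def OddPart (ρ : Representation k Γ V) (τ : Representation k Γ M) (n m : ℕ) : Prop :=
  ∀ g : (Fin n → V) [⋀^Fin (2 * m + 1)]→ₗ[k] M, IsEquivariant ρ τ g → g = 0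

/-- The variational Hodge conjecture for `Y` implies the one for `A ^ n ×_S Y`, for all `n`. Here `ρ`, `τ` are the actions of the Galois
group of the function field of `S` on the Tate module of `A` and on the cohomology `M` of `Y`. -/
def Implies (ρ : Representation k Γ V) (χ : Γ →* k) (τ : Representation k Γ M) : Prop :=
  ∀ n m : ℕ, EvenPart ρ χ τ n m ∧ OddPart ρ τ n m

end implies

section classes

variable {Γ W T : Type} [Group Γ] [AddCommGroup W] [Module ℚ W] [AddCommGroup T] [Module ℂ T] {V : ℕ → Type}
  [∀ ℓ, AddCommGroup (V ℓ)] [∀ (ℓ : ℕ) [Fact ℓ.Prime], Module ℚ_[ℓ] (V ℓ)]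
  [∀ (ℓ : ℕ) [Fact ℓ.Prime], FiniteDimensional ℚ_[ℓ] (V ℓ)]

/-- The good residue classes modulo `p` of general type. -/
def generalClasses {d : ℕ} (A : Family Γ W T V d) (D p : ℕ) : Set (Fin d → ZMod p) :=
  {x | x ∈ A.good p ∧ GeneralType p (A.a p) D (A.Frob p x)}

/-- The `ℓ`-adic representation `τ` is small: with at most `m` exceptions, the Frobenius element `γ p` at the primes `p ≠ ℓ` in `P` is
killed by a rational polynomial whose roots are products of algebraic numbers of degree less than `D`. -/
def Small {d : ℕ} (A : Family Γ W T V d) (P : ℕ → Prop) (D m : ℕ) (ℓ : ℕ) [Fact ℓ.Prime] {M : Type} [AddCommGroup M]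
    [Module ℚ_[ℓ] M] (τ : Representation ℚ_[ℓ] Γ M) : Prop :=
  ∃ bad : Finset ℕ, bad.card ≤ m ∧ ∀ p, P p → p ∉ bad → p ≠ ℓ →
    ∃ R : ℚ[X], SmallRoots D R ∧ aeval (τ (A.γ p)) (R.map (algebraMap ℚ ℚ_[ℓ])) = 0

/-- One prime number with a residue class of general type at which the representation is small suffices. -/
lemma one_prime {d : ℕ} (A : Family Γ W T V d) (D : ℕ) (t : Fin d → ℤ) (p : ℕ) (hp : p.Prime)
    (ht : red p t ∈ generalClasses A D p) (ℓ : ℕ) [Fact ℓ.Prime] (hl : p ≠ ℓ) {M : Type} [AddCommGroup M] [Module ℚ_[ℓ] M]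
    [FiniteDimensional ℚ_[ℓ] M] (τ : Representation ℚ_[ℓ] Γ M) (R : ℚ[X]) (hR : SmallRoots D R)
    (hk : aeval (τ (A.γ p)) (R.map (algebraMap ℚ ℚ_[ℓ])) = 0) : Implies ((A.A t).ρ ℓ) (A.χ ℓ) τ := by
  obtain ⟨hg, hfact, C, _, K, J, _, π, hS, hsep, hD, hQ⟩ := ht
  have htU := A.mem p hp t hg
  have ha := A.properties t htU ℓ
  have hT : FT.IsTateModule ((A.A t).ρ ℓ) (A.χ ℓ) ((A.A t).ω ℓ) :=
    ⟨ha.alternating, ha.nondegenerate, ha.invariant, ha.semisimple⟩
  have h := OneFrobeniusTimesFamily.result.1 p (A.a p) C (fun c => (K c).E) J π (A.degree p hp) hS hsep ℓ (V ℓ) M Γ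
    ((A.A t).ρ ℓ) (A.χ ℓ) ((A.A t).ω ℓ) τ (A.γ p) R hT (A.cyclotomic p hp ℓ hl) (by
      have h1 := A.charpoly p hp ℓ hl t hg
      unfold HasCharpoly at h1
      rw [h1, hQ, Polynomial.map_prod]) hR.1 hk (by
      intro x hx
      obtain ⟨h0, n, y, hy, hxy⟩ := hR.2 x hx
      exact ⟨h0, n, y, fun l => ⟨(hy l).1, fun c => Or.inr ((hy l).2.trans_le (hD c))⟩, hxy⟩)
  exact fun n m => ⟨h.1 n m, h.2 n m⟩

end classes

/-- **The variational Hodge conjecture for `A_t ^ n ×_S Y`, `t` near an arbitrary integral point and `Y` arbitrary.** -/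
theorem result {Γ W T : Type} [Group Γ] [AddCommGroup W] [Module ℚ W] [AddCommGroup T] [Module ℂ T] {V : ℕ → Type}
    [∀ ℓ, AddCommGroup (V ℓ)] [∀ (ℓ : ℕ) [Fact ℓ.Prime], Module ℚ_[ℓ] (V ℓ)]
    [∀ (ℓ : ℕ) [Fact ℓ.Prime], FiniteDimensional ℚ_[ℓ] (V ℓ)] {d : ℕ} (A : Family Γ W T V d) (D : ℕ)
    (P : ℕ → Prop) (κ θ : ℝ) (hκ : 0 < κ) (hθ : 0 < θ)
    (hP : ∀ p, P p → p.Prime ∧ κ * (p : ℝ) ^ d ≤ ((generalClasses A D p).ncard : ℝ))
    (hcount : ∃ y₀ : ℕ, ∀ y : ℕ, y₀ ≤ y → (y : ℝ) ^ θ ≤ (({p : ℕ | P p ∧ p ≤ y}).ncard : ℝ)) :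
    ∀ (b : ℕ), 2 ≤ b → ∀ (m : ℕ) (B : ℝ), 0 < B →
      ∃ C : ℝ, 0 < C ∧ ∃ K₀ : ℕ, ∀ K : ℕ, K₀ ≤ K → ∀ r : ℕ, C * Real.log K ≤ r → 2 * r ≤ K →
      -- every integral point with coordinates with at most `K` digits and all new digits
      ∀ (s : Fin d → ℤ) (N : Fin d → ℕ) (f : Fin d → ℕ → ℕ), Admissible b K s N f →
        ∃ Ex ⊆ choices d r K, (Ex.card : ℝ) ≤ (K : ℝ) ^ (-B) * (K.choose r : ℝ) ^ d ∧
          ∀ S ∈ choices d r K, S ∉ Ex → changed b K s N f S ∈ A.U ∧
            -- all `ℓ` and all small families `Y`, simultaneously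
            ∀ (ℓ : ℕ) [Fact ℓ.Prime] (M : Type) [AddCommGroup M] [Module ℚ_[ℓ] M] [FiniteDimensional ℚ_[ℓ] M]
              (τ : Representation ℚ_[ℓ] Γ M), Small A P D m ℓ τ →
              Implies ((A.A (changed b K s N f S)).ρ ℓ) (A.χ ℓ) τ := by
  classical
  intro b hb m B hB
  obtain ⟨C, hC, K₀, h⟩ := Pool.Agent.Q328.VD.many_fin (m + 1) b hb B 1 κ θ hB one_pos hκ hθ d P
    (fun p => generalClasses A D p) (fun p hp => ⟨(hP p hp).1, by
      have := (hP p hp).2
      rwa [← Nat.card_coe_set_eq] at this⟩) hcount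
  refine ⟨C, hC, K₀, fun K hK r hr hrK s N f hA => ?_⟩
  obtain ⟨Ex, hEx⟩ : ∃ Ex : Finset (Fin d → Finset ℕ), Ex =
      (choices d r K).filter (fun S => Set.ncard {p : ℕ | P p ∧ (p : ℝ) ≤ (K : ℝ) ^ (1 : ℝ) ∧
        red p (changed b K s N f S) ∈ generalClasses A D p} ≤ m + 1) := ⟨_, rfl⟩
  refine ⟨Ex, by rw [hEx]; exact Finset.filter_subset _ _, ?_, fun S hS hS2 => ?_⟩
  · rw [hEx]
    exact h K hK r hr hrK N hA.2.1 s hA.1 f hA.2.2
  · rw [hEx, Finset.mem_filter, not_and] at hS2
    have h2 : m + 1 < Set.ncard {p : ℕ | P p ∧ (p : ℝ) ≤ (K : ℝ) ^ (1 : ℝ) ∧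
        red p (changed b K s N f S) ∈ generalClasses A D p} := not_le.1 (hS2 hS)
    obtain ⟨Good, hGood⟩ : ∃ G : Set ℕ, G = {p : ℕ | P p ∧ (p : ℝ) ≤ (K : ℝ) ^ (1 : ℝ) ∧
        red p (changed b K s N f S) ∈ generalClasses A D p} := ⟨_, rfl⟩
    rw [← hGood] at h2
    have hmem : ∀ p ∈ Good, P p ∧ red p (changed b K s N f S) ∈ generalClasses A D p := by
      intro p hp
      rw [hGood] at hp
      exact ⟨hp.1, hp.2.2⟩
    have hex : ∀ E : Finset ℕ, E.card ≤ m + 1 → ∃ p ∈ Good, p ∉ E := by
      intro E hE
      by_contra hcon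
      push Not at hcon
      have h3 : Good.ncard ≤ E.card := by
        rw [← Set.ncard_coe_finset]
        exact Set.ncard_le_ncard (fun p hp => hcon p hp) E.finite_toSet
      omega
    refine ⟨?_, fun ℓ _ M _ _ _ τ hτ => ?_⟩
    · obtain ⟨p, hp, -⟩ := hex ∅ (by simp)
      exact A.mem p (hP p (hmem p hp).1).1 _ (hmem p hp).2.1
    · obtain ⟨bad, hbad, hτ⟩ := hτ
      obtain ⟨p, hp, hpE⟩ := hex (insert ℓ bad) ((Finset.card_insert_le _ _).trans (by omega))
      rw [Finset.mem_insert, not_or] at hpE
      obtain ⟨R, hR, hk⟩ := hτ p (hmem p hp).1 hpE.2 hpE.1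
      exact one_prime A D _ p (hP p (hmem p hp).1).1 (hmem p hp).2 ℓ hpE.1 τ R hR hk

end Pool.Agent.Results.MP_e9c0f3_ag.FewDigitMembers
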