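import Pool.Agent.Q67.TA.Var

/-!
# MP_e9c0f3_ag: a law for the variational Hodge conjecture on the powers of a family
-/

set_option autoImplicit false

open CategoryTheory AlgebraicGeometry

universe u

namespace Pool.Agent.Results.MP_e9c0f3_ag.VariationalLaw

open Pool.Agent.H914 Pool.Agent.Y121.AHS
open Pool.Agent.Q67.TP.S hiding Maps GivenBy HasIndex
open Pool.Agent.Q67.TA.S

/-- Let `T` be a Hodge theory on a class of varieties over a field `k`. In the intended use `k` is
the function field of a smooth connected complex variety `S`, the varieties are the generic fibres
of the smooth projective families over `S`, and `T` is the cohomology `H(X_o, ℚ)` of the fibre at a
point `o`, with its Hodge structure. Let `inv X` be the set of the classes of even degree in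
`H(X_o, ℚ)` which are invariant under the monodromy, and `algAt s X` the set of the classes of even
degree which are transported (along a fixed path from `o` to `s`) to algebraic classes on the fibre
`X_s`. These sets contain the classes of the cycles on the generic fibre and are stable under linear
combinations in each even degree, products, pull-backs and push-forwards along morphisms of
families, and the classes which are algebraic on the fibre at `o` are Hodge classes. The variational
Hodge conjecture says that the elements of `R = inv ∩ algAt o` belong to `algAt s` for all `s`.

Let `P` be a set of points of `S` (for instance one point, or all points), `C ⊆ R` the classes in `R`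
which belong to `algAt s` for all `s` in `P`, and `X` a family with nonzero cohomology such that a
polarisation of the cohomology of `X_o` and the projector to the cohomology of odd degree are given
by elements of `C` on `X × X` (for instance an abelian scheme, or a family such that the Lefschetz
standard conjecture is true for its generic fibre).

Then there is `N` in `{1, 2, ..., ∞}` such that the quotients of the dimensions of the spaces
spanned by `R` and by `C` on `X^n` converge to `N`, and

* `N = 1` if and only if all classes on all powers of `X` which are invariant and algebraic on the
  fibre at `o` are algebraic on the fibres at the points in `P` (the variational Hodge conjecture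
  for the powers of `X`); otherwise asymptotically at most one half of these classes are algebraic
  on the fibres at the points in `P`;
* if `N` is finite, then `N - 1` classes in `R` on powers of `X` generate all of them over `C`;
* `N` is finite if and only if all operators on the cohomology of `X_o` which kill (as derivations)
  the classes in `C` on all powers of `X` kill the classes in `R` on all powers of `X`. -/
theorem result {k : Type u} [Field k] {𝒱 : VarClass k} {ops : CycleOps 𝒱} (T : HodgeTheory ops)
    (X : 𝒱.Obj) [Nontrivial (RH T X)] {S : Type} (o : S) (inv : Classes T) (algAt : S → Classes T)
    (hF : IsFamily o inv algAt) (P : S → Prop) (u : ROp T X)
    (hu : PolarisedBy (meet (meet inv (algAt o)) (meetAll fun s : {s // P s} => algAt s)) X u)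
    (ho : OddIn (meet (meet inv (algAt o)) (meetAll fun s : {s // P s} => algAt s)) X) :
    ∃ N : ℕ∞, Law (meet inv (algAt o))
      (meet (meet inv (algAt o)) (meetAll fun s : {s // P s} => algAt s)) X N :=
  variational hF P hu ho

end Pool.Agent.Results.MP_e9c0f3_ag.VariationalLaw
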